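import Mathlib
import Pool.Agent.K1H79.TW.Stm

set_option autoImplicit false

namespace Pool.Agent.K1H80.TW

open NumberField Pool.Agent.K1H79.TW
open scoped Classical

/-- the norm as a product over the places above a place -/
theorem key {E K : Type} [Field E] [NumberField E] [Field K] [NumberField K] [Algebra E K]
    (v : InfinitePlace E) : ∃ (ι : Type) (_ : Fintype ι) (W : ι → InfinitePlace K),
    Fintype.card ι = Module.finrank E K ∧
    (∀ i, (W i).comap (algebraMap E K) = v) ∧
    (∀ w : InfinitePlace K, w.comap (algebraMap E K) = v → ∃ i, W i = w) ∧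
    ∀ x : K, v (Algebra.norm E x) = ∏ i, W i x := by
  let : Algebra E ℂ := v.embedding.toAlgebra
  have halg : ∀ e : E, algebraMap E ℂ e = v.embedding e := fun _ => rfl
  refine ⟨K →ₐ[E] ℂ, inferInstance, fun σ => InfinitePlace.mk σ.toRingHom, AlgHom.card E K ℂ, ?_, ?_, ?_⟩
  · intro σ
    rw [InfinitePlace.comap_mk]
    have : (σ.toRingHom).comp (algebraMap E K) = v.embedding := by
      ext e
      exact (σ.commutes e)
    rw [this, InfinitePlace.mk_embedding]
  · intro w hw
    rw [← InfinitePlace.mk_embedding w, InfinitePlace.comap_mk, ← InfinitePlace.mk_embedding v,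
      InfinitePlace.mk_eq_iff] at hw
    rcases hw with hw | hw
    · refine ⟨{ w.embedding with commutes' := fun e => ?_ }, ?_⟩
      · exact congrArg (fun f : E →+* ℂ => f e) hw
      · conv_rhs => rw [← InfinitePlace.mk_embedding w]
    · refine ⟨{ ComplexEmbedding.conjugate w.embedding with commutes' := fun e => ?_ }, ?_⟩
      · exact congrArg (fun f : E →+* ℂ => f e) hw
      · conv_rhs => rw [← InfinitePlace.mk_embedding w, ← InfinitePlace.mk_conjugate_eq]
  · intro x
    have h1 : v (Algebra.norm E x) = ‖v.embedding (Algebra.norm E x)‖ := by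
      rw [InfinitePlace.norm_embedding_eq]
    rw [h1, ← halg, Algebra.norm_eq_prod_embeddings E ℂ x, norm_prod]
    rfl

/-- logarithm of a unit at a place -/
noncomputable def lg {F : Type} [Field F] [NumberField F] (w : InfinitePlace F) (u : (𝓞 F)ˣ) : ℝ :=
  Real.log (w ((u : 𝓞 F) : F))

section one
variable {F : Type} [Field F] [NumberField F]

omit [NumberField F] in
theorem pos_pl (w : InfinitePlace F) (u : (𝓞 F)ˣ) : 0 < w ((u : 𝓞 F) : F) := Units.pos_at_place u w

theorem lg_mul (w : InfinitePlace F) (u u' : (𝓞 F)ˣ) : lg w (u * u') = lg w u + lg w u' := by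
  have h : w (((u * u' : (𝓞 F)ˣ) : 𝓞 F) : F) = w ((u : 𝓞 F) : F) * w ((u' : 𝓞 F) : F) := by
    rw [← map_mul]
    rfl
  unfold lg
  rw [h, Real.log_mul (pos_pl w u).ne' (pos_pl w u').ne']

theorem lg_one (w : InfinitePlace F) : lg w 1 = 0 := by
  have := lg_mul w 1 1
  rw [one_mul] at this
  linarith

theorem lg_inv (w : InfinitePlace F) (u : (𝓞 F)ˣ) : lg w u⁻¹ = - lg w u := by
  have := lg_mul w u u⁻¹
  rw [mul_inv_cancel, lg_one] at this
  linarith

theorem lg_pow (w : InfinitePlace F) (u : (𝓞 F)ˣ) (k : ℕ) : lg w (u ^ k) = k * lg w u := by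
  induction k with
  | zero => simp [lg_one]
  | succ k ih => rw [pow_succ, lg_mul, ih]; push_cast; ring

theorem lg_zero_iff (w : InfinitePlace F) (u : (𝓞 F)ˣ) : lg w u = 0 ↔ w ((u : 𝓞 F) : F) = 1 := by
  constructor
  · intro h
    have := Real.exp_log (pos_pl w u)
    unfold lg at h
    rw [h, Real.exp_zero] at this
    exact this.symm
  · intro h
    unfold lg
    rw [h, Real.log_one]

/-- a unit is determined up to roots of unity by the log embedding -/
theorem lg_eq_of_log {u u' : (𝓞 F)ˣ} (h : Units.logEmbedding F (Additive.ofMul u) = Units.logEmbedding F (Additive.ofMul u'))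
    (w : InfinitePlace F) : lg w u = lg w u' := by
  have h1 : Units.logEmbedding F (Additive.ofMul (u * u'⁻¹)) = 0 := by
    rw [ofMul_mul, map_add, ofMul_inv, map_neg, h, add_neg_cancel]
  rw [Units.dirichletUnitTheorem.logEmbedding_eq_zero_iff, Units.mem_torsion] at h1
  have := (lg_zero_iff w (u * u'⁻¹)).2 (h1 w)
  rw [lg_mul, lg_inv] at this
  linarith

theorem log_eq_of_lg {u u' : (𝓞 F)ˣ} (h : ∀ w : InfinitePlace F, lg w u = lg w u') :
    Units.logEmbedding F (Additive.ofMul u) = Units.logEmbedding F (Additive.ofMul u') := by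
  ext w
  rw [Units.dirichletUnitTheorem.logEmbedding_component, Units.dirichletUnitTheorem.logEmbedding_component]
  have := h w.1
  unfold lg at this
  rw [this]

end one

section two
variable {E K : Type} [Field E] [NumberField E] [Field K] [NumberField K] [Algebra E K]

/-- the norm of units -/
noncomputable def NU (E K : Type) [Field E] [NumberField E] [Field K] [NumberField K] [Algebra E K] :
    (𝓞 K)ˣ →* (𝓞 E)ˣ := Units.map (RingOfIntegers.norm E)

/-- inclusion of units -/
noncomputable def IU (E K : Type) [Field E] [NumberField E] [Field K] [NumberField K] [Algebra E K] :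
    (𝓞 E)ˣ →* (𝓞 K)ˣ := Units.map (algebraMap (𝓞 E) (𝓞 K)).toMonoidHom

theorem lg_IU (w : InfinitePlace K) (e : (𝓞 E)ˣ) : lg w (IU E K e) = lg (w.comap (algebraMap E K)) e := rfl

theorem NU_IU (e : (𝓞 E)ˣ) : NU E K (IU E K e) = e ^ Module.finrank E K := by
  ext1
  have := RingOfIntegers.norm_algebraMap (L := K) E (e : 𝓞 E)
  rw [Units.val_pow_eq_pow_val]
  exact this

theorem lg_NU {v : InfinitePlace E} {ι : Type} [Fintype ι] {W : ι → InfinitePlace K}
    (h : ∀ x : K, v (Algebra.norm E x) = ∏ i, W i x) (u : (𝓞 K)ˣ) :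
    lg v (NU E K u) = ∑ i, lg (W i) u := by
  have h1 : lg v (NU E K u) = Real.log (v (Algebra.norm E ((u : 𝓞 K) : K))) := rfl
  rw [h1, h, Real.log_prod]
  · rfl
  · intro i _
    exact (pos_pl (W i) u).ne'

theorem abs_lg_NU (v : InfinitePlace E) (u : (𝓞 K)ˣ) (S : ℝ) (hS : ∀ w : InfinitePlace K, |lg w u| ≤ S) :
    |lg v (NU E K u)| ≤ Module.finrank E K * S := by
  obtain ⟨ι, hι, W, hc, -, -, hp⟩ := key (E := E) (K := K) v
  rw [lg_NU hp]
  refine (Finset.abs_sum_le_sum_abs _ _).trans ?_
  refine (Finset.sum_le_card_nsmul _ _ _ fun i _ => hS (W i)).trans ?_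
  rw [nsmul_eq_mul, Finset.card_univ, hc]

/-- a section of the restriction of places -/
noncomputable def sec (v : InfinitePlace E) : InfinitePlace K :=
  Function.surjInv (f := fun w : InfinitePlace K => w.comap (algebraMap E K))
    InfinitePlace.comap_surjective v

theorem sec_spec (v : InfinitePlace E) : (sec v : InfinitePlace K).comap (algebraMap E K) = v :=
  Function.surjInv_eq (f := fun w : InfinitePlace K => w.comap (algebraMap E K))
    InfinitePlace.comap_surjective v

/-- relative units: control at the places outside a section is control everywhere -/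
theorem rel_le (q : (𝓞 K)ˣ) (hq : NU E K q = 1) (δ : ℝ) (hδ : 0 ≤ δ)
    (h : ∀ w : InfinitePlace K, w ≠ sec (w.comap (algebraMap E K)) → |lg w q| ≤ δ)
    (w : InfinitePlace K) : |lg w q| ≤ Module.finrank E K * δ := by
  have hm : (1 : ℝ) ≤ Module.finrank E K := by exact_mod_cast Module.finrank_pos
  by_cases hw : w = sec (w.comap (algebraMap E K))
  · obtain ⟨ι, hι, W, hc, hW, hW2, hp⟩ := key (E := E) (K := K) (w.comap (algebraMap E K))
    have h0 : ∑ i, lg (W i) q = 0 := by
      rw [← lg_NU hp, hq, lg_one]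
    rw [← Finset.sum_filter_add_sum_filter_not Finset.univ (fun i => W i = w)] at h0
    have h1 : ∑ i ∈ Finset.univ.filter (fun i => W i = w), lg (W i) q =
        ((Finset.univ.filter (fun i => W i = w)).card : ℝ) * lg w q := by
      rw [← nsmul_eq_mul, ← Finset.sum_const]
      refine Finset.sum_congr rfl fun i hi => ?_
      rw [(Finset.mem_filter.1 hi).2]
    have h2 : |∑ i ∈ Finset.univ.filter (fun i => ¬ W i = w), lg (W i) q| ≤ Module.finrank E K * δ := by
      refine (Finset.abs_sum_le_sum_abs _ _).trans ?_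
      refine (Finset.sum_le_card_nsmul _ _ δ fun i hi => ?_).trans ?_
      · apply h
        rw [hW i]
        rw [← hw]
        exact (Finset.mem_filter.1 hi).2
      · rw [nsmul_eq_mul]
        refine mul_le_mul_of_nonneg_right ?_ hδ
        have : (Finset.univ.filter (fun i => ¬ W i = w)).card ≤ Fintype.card ι := Finset.card_le_univ _
        rw [hc] at this
        exact_mod_cast this
    obtain ⟨i0, hi0⟩ := hW2 w rfl
    have h3 : (1 : ℝ) ≤ ((Finset.univ.filter (fun i => W i = w)).card : ℝ) := by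
      have : 0 < (Finset.univ.filter (fun i => W i = w)).card :=
        Finset.card_pos.2 ⟨i0, Finset.mem_filter.2 ⟨Finset.mem_univ _, hi0⟩⟩
      exact_mod_cast this
    have h4 : |lg w q| ≤ ((Finset.univ.filter (fun i => W i = w)).card : ℝ) * |lg w q| := by
      nlinarith [abs_nonneg (lg w q)]
    refine h4.trans ?_
    have h5 : ((Finset.univ.filter (fun i => W i = w)).card : ℝ) * |lg w q| =
        |((Finset.univ.filter (fun i => W i = w)).card : ℝ) * lg w q| := by
      rw [abs_mul, abs_of_nonneg (Nat.cast_nonneg (Finset.univ.filter (fun i => W i = w)).card : (0:ℝ) ≤ _)]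
    rw [h5, ← h1]
    have h6 : ∑ i ∈ Finset.univ.filter (fun i => W i = w), lg (W i) q =
        - ∑ i ∈ Finset.univ.filter (fun i => ¬ W i = w), lg (W i) q := by linarith
    rw [h6, abs_neg]
    exact h2
  · refine (h w hw).trans ?_
    nlinarith

/-- the relative part of a unit -/
noncomputable def RU (E K : Type) [Field E] [NumberField E] [Field K] [NumberField K] [Algebra E K]
    (u : (𝓞 K)ˣ) : (𝓞 K)ˣ := u ^ Module.finrank E K * (IU E K (NU E K u))⁻¹

theorem NU_RU (u : (𝓞 K)ˣ) : NU E K (RU E K u) = 1 := by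
  unfold RU
  rw [map_mul, map_inv, NU_IU, map_pow, mul_inv_cancel]

theorem lg_RU (w : InfinitePlace K) (u : (𝓞 K)ˣ) :
    lg w (RU E K u) = Module.finrank E K * lg w u - lg (w.comap (algebraMap E K)) (NU E K u) := by
  unfold RU
  rw [lg_mul, lg_inv, lg_pow, lg_IU]
  ring

/-- the number of the places outside the section -/
theorem card_out : Units.rank E ≤ Units.rank K ∧
    Nat.card {w : InfinitePlace K // w ≠ sec (w.comap (algebraMap E K))} = Units.rank K - Units.rank E := by
  have h1 : Fintype.card (InfinitePlace K) =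
      Nat.card {w : InfinitePlace K // w = sec (w.comap (algebraMap E K))} +
        Nat.card {w : InfinitePlace K // w ≠ sec (w.comap (algebraMap E K))} := by
    rw [Nat.card_eq_fintype_card, Nat.card_eq_fintype_card, Fintype.card_subtype_compl, ]
    have := Fintype.card_subtype_le (fun w : InfinitePlace K => w = sec (w.comap (algebraMap E K)))
    omega
  have h2 : Nat.card {w : InfinitePlace K // w = sec (w.comap (algebraMap E K))} =
      Fintype.card (InfinitePlace E) := by
    rw [← Nat.card_eq_fintype_card]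
    refine Nat.card_congr ⟨fun w => w.1.comap (algebraMap E K), fun v => ⟨sec v, by rw [sec_spec]⟩, ?_, ?_⟩
    · intro w
      exact Subtype.ext w.2.symm
    · intro v
      exact sec_spec v
  have h3 : 0 < Fintype.card (InfinitePlace E) := Fintype.card_pos
  have e1 : Units.rank E = Fintype.card (InfinitePlace E) - 1 := by
    unfold Units.rank
    convert rfl
  have e2 : Units.rank K = Fintype.card (InfinitePlace K) - 1 := by
    unfold Units.rank
    convert rfl
  omega

end two

/-- the number of places is at most the degree -/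
theorem card_places (F : Type) [Field F] [NumberField F] :
    Fintype.card (InfinitePlace F) ≤ Module.finrank ℚ F := by
  have h1 := InfinitePlace.card_add_two_mul_card_eq_rank F
  have h2 : Fintype.card (InfinitePlace F) = InfinitePlace.nrRealPlaces F + InfinitePlace.nrComplexPlaces F := by
    exact InfinitePlace.card_eq_nrRealPlaces_add_nrComplexPlaces F
  omega

theorem cnt_fin (F : Type) [Field F] [NumberField F] (r : ℝ) : Finite
    {x : Units.dirichletUnitTheorem.logSpace F // x ∈ Units.unitLattice F ∧ ∀ w, |x w| ≤ r} := by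
  have h := Units.dirichletUnitTheorem.unitLattice_inter_ball_finite F (max r 0)
  refine (h.subset ?_).to_subtype
  rintro x ⟨h1, h2⟩
  refine ⟨h1, ?_⟩
  rw [mem_closedBall_zero_iff, pi_norm_le_iff_of_nonneg (le_max_right _ _)]
  intro w
  exact (h2 w).trans (le_max_left _ _)

theorem main {E K : Type} [Field E] [NumberField E] [Field K] [NumberField K] [Algebra E K]
    (n : ℕ) (hn : Module.finrank ℚ K = n) (c : ℝ) (hc : 0 < c)
    (hKRO : ∀ u : (𝓞 K)ˣ, (∀ w : InfinitePlace K, |lg w u| ≤ c) → ∀ w : InfinitePlace K, lg w u = 0)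
    (M : ℕ) (hM : 2 * (n : ℝ) ^ 2 * (n + 1) / c + 1 ≤ M) (T : ℕ) (hT : 1 ≤ T) :
    cnt K T ≤ cnt E ((2 * n ^ 2 + (3 * M) ^ n) * T) *
      ((2 * n ^ 2 + (3 * M) ^ n) * T ^ (Units.rank K - Units.rank E)) := by
  have hn1 : 1 ≤ n := by rw [← hn]; exact Module.finrank_pos
  have hmn : Module.finrank E K ≤ n := by
    rw [← hn, ← Module.finrank_mul_finrank ℚ E K]
    exact Nat.le_mul_of_pos_left _ Module.finrank_pos
  have hmnR : (Module.finrank E K : ℝ) ≤ n := by exact_mod_cast hmn
  have hm1 : (1 : ℝ) ≤ Module.finrank E K := by exact_mod_cast (Module.finrank_pos : 0 < Module.finrank E K)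
  have hM1 : 1 ≤ M := by
    have : (0 : ℝ) ≤ 2 * (n : ℝ) ^ 2 * (n + 1) / c := by positivity
    have : (1 : ℝ) ≤ M := by linarith
    exact_mod_cast this
  have hTR : (1 : ℝ) ≤ T := by exact_mod_cast hT
  have hnR : (1 : ℝ) ≤ n := by exact_mod_cast hn1
  set δ : ℝ := c / (n + 1) with hδ
  have hδ0 : 0 < δ := by positivity
  set X := {x : Units.dirichletUnitTheorem.logSpace K // x ∈ Units.unitLattice K ∧ ∀ w, |x w| ≤ (T : ℝ)} with hX
  set B : ℕ := 2 * n ^ 2 + (3 * M) ^ n with hB
  set Y := {x : Units.dirichletUnitTheorem.logSpace E // x ∈ Units.unitLattice E ∧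
    ∀ w, |x w| ≤ ((B * T : ℕ) : ℝ)} with hY
  set W' := {w : InfinitePlace K // w ≠ sec (w.comap (algebraMap E K))} with hW'
  -- the units
  have hu : ∀ x : X, ∃ u : (𝓞 K)ˣ, Units.logEmbedding K (Additive.ofMul u) = x.1 := by
    rintro ⟨x, ⟨⟨u, -, hu⟩, -⟩⟩
    exact ⟨Additive.toMul u, hu⟩
  choose u hu using hu
  have hb : ∀ (x : X) (w : InfinitePlace K), |lg w (u x)| ≤ n * T := by
    intro x w
    have h1 : ‖Units.logEmbedding K (Additive.ofMul (u x))‖ ≤ (T : ℝ) := by
      rw [hu, pi_norm_le_iff_of_nonneg (by positivity)]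
      intro w
      exact x.2.2 w
    have h2 := Units.dirichletUnitTheorem.log_le_of_logEmbedding_le (by positivity) h1 w
    refine h2.trans ?_
    have h3 := card_places K
    rw [hn] at h3
    have h4 : (Fintype.card (InfinitePlace K) : ℝ) ≤ n := by exact_mod_cast h3
    exact mul_le_mul_of_nonneg_right h4 (by positivity)
  have hbN : ∀ (x : X) (v : InfinitePlace E), |lg v (NU E K (u x))| ≤ n * (n * T) := by
    intro x v
    refine (abs_lg_NU v (u x) (n * T) (hb x)).trans ?_
    exact mul_le_mul_of_nonneg_right hmnR (by positivity)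
  have hbR : ∀ (x : X) (w : InfinitePlace K), |lg w (RU E K (u x))| ≤ 2 * n ^ 2 * T := by
    intro x w
    rw [lg_RU]
    have h1 : |(Module.finrank E K : ℝ) * lg w (u x)| ≤ n * (n * T) := by
      rw [abs_mul, abs_of_nonneg (by positivity)]
      exact mul_le_mul hmnR (hb x w) (abs_nonneg _) (by positivity)
    have h2 := hbN x (w.comap (algebraMap E K))
    have h3 := abs_sub (Module.finrank E K * lg w (u x)) (lg (w.comap (algebraMap E K)) (NU E K (u x)))
    nlinarith
  -- the map
  have hy : ∀ x : X, Units.logEmbedding E (Additive.ofMul (NU E K (u x))) ∈ Units.unitLattice E ∧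
      ∀ w, |Units.logEmbedding E (Additive.ofMul (NU E K (u x))) w| ≤ ((B * T : ℕ) : ℝ) := by
    intro x
    refine ⟨⟨Additive.ofMul (NU E K (u x)), Submodule.mem_top, rfl⟩, fun w => ?_⟩
    rw [Units.dirichletUnitTheorem.logEmbedding_component, abs_mul, Nat.abs_cast]
    have h1 := hbN x w.1
    unfold lg at h1
    have h2 : (InfinitePlace.mult w.1 : ℝ) ≤ 2 := by
      unfold InfinitePlace.mult
      split_ifs <;> norm_num
    have h3 : (2 : ℝ) * n ^ 2 ≤ B := by
      rw [hB]; push_cast
      have : (0 : ℝ) ≤ (3 * (M : ℝ)) ^ n := by positivity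
      linarith
    calc (InfinitePlace.mult w.1 : ℝ) * |Real.log (w.1 ((NU E K (u x) : 𝓞 E) : E))| ≤ 2 * (n * (n * T)) :=
          mul_le_mul h2 h1 (abs_nonneg _) (by norm_num)
      _ = (2 * n ^ 2) * T := by ring
      _ ≤ B * T := mul_le_mul_of_nonneg_right h3 (by positivity)
      _ = ((B * T : ℕ) : ℝ) := by push_cast; ring
  have hcell : ∀ (x : X) (w : W'), ⌊lg w.1 (RU E K (u x)) / δ⌋ ∈ Finset.Icc (-((M * T : ℕ) : ℤ)) ((M * T : ℕ) : ℤ) := by
    intro x w
    have h1 := abs_le.1 (hbR x w.1)
    have h0 : 2 * (n : ℝ) ^ 2 * T / δ + 1 ≤ ((M * T : ℕ) : ℝ) := by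
      have e1 : 2 * (n : ℝ) ^ 2 * T / δ = (2 * (n : ℝ) ^ 2 * (n + 1) / c) * T := by
        rw [hδ]; field_simp
      rw [e1]
      push_cast
      nlinarith
    have h2 : |lg w.1 (RU E K (u x)) / δ| ≤ 2 * (n : ℝ) ^ 2 * T / δ := by
      rw [abs_div, abs_of_pos hδ0]
      exact div_le_div_of_nonneg_right (hbR x w.1) hδ0.le
    have h3 := abs_le.1 h2
    rw [Finset.mem_Icc]
    constructor
    · rw [Int.le_floor]
      push_cast
      push_cast at h0
      linarith [h3.1]
    · have : (⌊lg w.1 (RU E K (u x)) / δ⌋ : ℝ) ≤ ((M * T : ℕ) : ℝ) := by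
        refine (Int.floor_le _).trans ?_
        linarith [h3.2]
      exact_mod_cast this
  let f : X → Y × (W' → ↥(Finset.Icc (-((M * T : ℕ) : ℤ)) ((M * T : ℕ) : ℤ))) := fun x =>
    (⟨Units.logEmbedding E (Additive.ofMul (NU E K (u x))), hy x⟩, fun w => ⟨_, hcell x w⟩)
  have hf : Function.Injective f := by
    intro x x' h
    have h1 : Units.logEmbedding E (Additive.ofMul (NU E K (u x))) =
        Units.logEmbedding E (Additive.ofMul (NU E K (u x'))) := congrArg (fun z => z.1.1) h
    have h2 : ∀ w : W', ⌊lg w.1 (RU E K (u x)) / δ⌋ = ⌊lg w.1 (RU E K (u x')) / δ⌋ := by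
      intro w
      exact congrArg (fun z => (z.2 w).1) h
    have h3 : ∀ w : InfinitePlace K, lg w (RU E K (u x) * (RU E K (u x'))⁻¹) = 0 := by
      apply hKRO
      intro w
      refine (rel_le (E := E) _ ?_ δ hδ0.le ?_ w).trans ?_
      · rw [map_mul, map_inv, NU_RU, NU_RU, inv_one, mul_one]
      · intro w hw
        rw [lg_mul, lg_inv]
        have h4 := h2 ⟨w, hw⟩
        have h5 := Int.abs_sub_lt_one_of_floor_eq_floor h4
        have h6 : |lg w (RU E K (u x)) - lg w (RU E K (u x'))| / δ < 1 := by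
          have : lg w (RU E K (u x)) / δ - lg w (RU E K (u x')) / δ =
            (lg w (RU E K (u x)) - lg w (RU E K (u x'))) / δ := by ring
          simp only [] at h5
          rw [this, abs_div, abs_of_pos hδ0] at h5
          exact h5
        rw [div_lt_one hδ0] at h6
        have : lg w (RU E K (u x)) + -lg w (RU E K (u x')) = lg w (RU E K (u x)) - lg w (RU E K (u x')) := by ring
        rw [this]
        exact h6.le
      · calc (Module.finrank E K : ℝ) * δ ≤ (n + 1) * δ := by nlinarith
          _ = c := by rw [hδ]; field_simp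
    have h7 : ∀ w : InfinitePlace K, lg w (u x) = lg w (u x') := by
      intro w
      have h8 := h3 w
      rw [lg_mul, lg_inv, lg_RU, lg_RU] at h8
      have h9 := lg_eq_of_log h1 (w.comap (algebraMap E K))
      have h10 : (Module.finrank E K : ℝ) * (lg w (u x) - lg w (u x')) = 0 := by linarith
      rcases mul_eq_zero.1 h10 with h | h
      · linarith
      · linarith
    have h11 := log_eq_of_lg h7
    rw [hu, hu] at h11
    exact Subtype.ext h11
  have : Finite Y := cnt_fin E _
  have h1 : Nat.card X ≤ Nat.card (Y × (W' → ↥(Finset.Icc (-((M * T : ℕ) : ℤ)) ((M * T : ℕ) : ℤ)))) :=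
    Nat.card_le_card_of_injective f hf
  have h2 : Nat.card (W' → ↥(Finset.Icc (-((M * T : ℕ) : ℤ)) ((M * T : ℕ) : ℤ))) =
      (2 * M * T + 1) ^ (Units.rank K - Units.rank E) := by
    rw [Nat.card_fun, (card_out (E := E) (K := K)).2, Nat.card_eq_fintype_card, Fintype.card_coe, Int.card_Icc]
    have h0 : ((M * T : ℕ) : ℤ) + 1 - -((M * T : ℕ) : ℤ) = ((2 * M * T + 1 : ℕ) : ℤ) := by
      push_cast; ring
    rw [h0, Int.toNat_natCast]
  rw [Nat.card_prod, h2] at h1
  refine h1.trans (Nat.mul_le_mul le_rfl ?_)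
  have h3 : Units.rank K - Units.rank E ≤ n := by
    have := card_places K
    have e2 : Units.rank K = Fintype.card (InfinitePlace K) - 1 := by
      unfold Units.rank
      convert rfl
    omega
  calc (2 * M * T + 1) ^ (Units.rank K - Units.rank E) ≤ (3 * M * T) ^ (Units.rank K - Units.rank E) := by
        refine Nat.pow_le_pow_left ?_ _
        nlinarith [Nat.mul_le_mul hM1 hT]
    _ = (3 * M) ^ (Units.rank K - Units.rank E) * T ^ (Units.rank K - Units.rank E) := by
        rw [mul_pow]
    _ ≤ B * T ^ (Units.rank K - Units.rank E) := by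
        refine Nat.mul_le_mul ?_ le_rfl
        have : (3 * M) ^ (Units.rank K - Units.rank E) ≤ (3 * M) ^ n :=
          Nat.pow_le_pow_right (by omega) h3
        omega

theorem t_REL : S_REL := by
  intro hK n
  obtain ⟨c, hc, hKRO⟩ := hK n
  obtain ⟨M, hM⟩ := exists_nat_ge (2 * (n : ℝ) ^ 2 * (n + 1) / c + 1)
  have hM1 : 1 ≤ M := by
    have : (0 : ℝ) ≤ 2 * (n : ℝ) ^ 2 * (n + 1) / c := by positivity
    have : (1 : ℝ) ≤ M := by linarith
    exact_mod_cast this
  refine ⟨2 * n ^ 2 + (3 * M) ^ n, by positivity, ?_⟩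
  intro E K _ _ _ _ _ hn
  refine ⟨card_out.1, fun T hT => ?_⟩
  refine main n hn c hc ?_ M hM T hT
  intro u hu w
  rw [lg_zero_iff]
  exact hKRO K hn.le u hu w

end Pool.Agent.K1H80.TW

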